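import Pool.Agent.Helper39.TW.Lib

/-! Module X3: the case `y = a` of (3.3)(iii). -/

set_option autoImplicit false

namespace TwoWalk

open Finset

variable {V : Type} [DecidableEq V] {G : SimpleGraph V}

/-- a leftover of the core is a component of `X.erase k` -/
theorem X3_left {X K' F : Finset V} {k : V} (hK' : K' ⊆ X) (hF : IsComp G (X \ K') F) (hk : k ∈ K')
    (huni : ∀ e ∈ F, ∀ v ∈ K', G.Adj e v → v = k) : IsComp G (X.erase k) F := by
  refine ⟨fun f hf => ?_, hF.conn, ?_⟩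
  · have h1 := mem_sdiff.1 (hF.subset hf)
    exact mem_erase.2 ⟨fun h => h1.2 (h ▸ hk), h1.1⟩
  · rintro ⟨e, he, v, hv, hev⟩
    rw [mem_sdiff, mem_erase] at hv
    by_cases hvK : v ∈ K'
    · exact hv.1.1 (huni e he v hvK hev)
    · exact hv.2 (hF.mem_of_adj he (mem_sdiff.2 ⟨hv.1.2, hvK⟩) hev)

theorem st_X3 (h3 : ST_T3) (h5 : ST_T5) : ST_X3 := by
  intro V _ _ G S a c K h₁ h₂ D hc3 hK33 hSc hNC hRa hRc hac hF hD hcD hw
  classical
  obtain ⟨hKS, haK, hcK, hah, hch, hCh, hM⟩ := hF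
  obtain ⟨w, hwK, hwuni⟩ := hw
  have haS : a ∈ S := hRa.1
  have hcS : c ∈ S := hRc.1
  have haM : a ∈ S \ K := mem_sdiff.2 ⟨haS, haK⟩
  have hcM : c ∈ S \ K := mem_sdiff.2 ⟨hcS, hcK⟩
  have haD : a ∉ D := hD.notMem_erase
  have hDM : D ⊆ S \ K := hD.subset_erase
  have hDS : D ⊆ S := hDM.trans sdiff_subset
  have hDK : ∀ d ∈ D, d ∉ K := fun d hd => (mem_sdiff.1 (hDM hd)).2
  have hh1K : h₁ ∈ K := hCh.right_mem
  -- neighbours of `D` in `S`
  have hDn : ∀ d ∈ D, ∀ v ∈ S, v ∉ D → G.Adj d v → v = a ∨ v = w := by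
    intro d hd v hv hvD hdv
    by_cases hvK : v ∈ K
    · exact Or.inr (hwuni d hd v hvK hdv)
    · exact Or.inl (hD.eq_of_adj_erase hd (mem_sdiff.2 ⟨hv, hvK⟩) hvD hdv)
  obtain ⟨da, hda, hdaa⟩ := hD.adj_erase hM haM
  -- `D ~ w`
  obtain ⟨dw, hdw, hdww⟩ : ∃ d ∈ D, G.Adj d w := by
    obtain ⟨e, he, v, hv, hvD, hva, hev⟩ := hNC.exists_adj hDS hD.nonempty haD
      ⟨c, hcS, hcD, hac.symm⟩
    rcases hDn e he v hv hvD hev with h | h
    · exact absurd h hva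
    · exact ⟨e, he, h ▸ hev⟩
  -- `D` contains a rim vertex
  have hwS : w ∈ S := hKS hwK
  have hwD : w ∉ D := fun h => hDK w h hwK
  obtain ⟨r, hr, yr, hyr, hryr⟩ := hc3.exists_rim (S := S) (D := D) (T := {a, w}) hSc.1 hDS
    hD.nonempty (Finset.card_le_two) (by
      intro v hv
      rcases mem_insert.1 hv with h | h
      · exact h ▸ haS
      · exact (mem_singleton.1 h) ▸ hwS) (by
      rw [disjoint_left]
      intro v hv hv'
      rcases mem_insert.1 hv' with h | h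
      · exact haD (h ▸ hv)
      · exact hwD ((mem_singleton.1 h) ▸ hv)) (by
      intro d hd v hv hvD hdv
      rcases hDn d hd v hv hvD hdv with h | h
      · exact mem_insert.2 (Or.inl h)
      · exact mem_insert_of_mem (mem_singleton.2 h))
  have hrim : Rim G S r := ⟨hDS hr, yr, hyr, hryr⟩
  -- `X = K ∪ D`
  set X : Finset V := K ∪ D with hX
  have hXc : Conn G X := hCh.conn.union hD.conn (Or.inl ⟨w, hwK, dw, hdw, hdww.symm⟩)
  have hXS : X ⊆ S := union_subset hKS hDS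
  have haX : a ∉ X := fun h => (mem_union.1 h).elim haK haD
  have hcX : c ∉ X := fun h => (mem_union.1 h).elim hcK hcD
  have hKX : K ⊆ X := subset_union_left
  have hDX : D ⊆ X := subset_union_right
  -- `D` is a component of `X.erase w`
  have hDw : IsComp G (X.erase w) D := by
    refine ⟨fun d hd => mem_erase.2 ⟨fun h => hwD (h ▸ hd), hDX hd⟩, hD.conn, ?_⟩
    rintro ⟨d, hd, v, hv, hdv⟩
    rw [mem_sdiff, mem_erase] at hv
    rcases mem_union.1 hv.1.2 with h | h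
    · exact hv.1.1 (hwuni d hd v h hdv)
    · exact hv.2 h
  -- a minimal pair
  let Fam : Finset (Finset V) := D.powerset.filter (fun E => (∃ k ∈ X, IsComp G (X.erase k) E) ∧
    (∃ ρ ∈ E, Rim G S ρ) ∧ ∃ e ∈ E, G.Adj e a)
  have hFam : Fam.Nonempty := ⟨D, mem_filter.2 ⟨mem_powerset.2 subset_rfl,
    ⟨w, hKX hwK, hDw⟩, ⟨r, hr, hrim⟩, ⟨da, hda, hdaa⟩⟩⟩
  obtain ⟨E, hE, hmin⟩ := exists_min_image Fam card hFam
  obtain ⟨hED', ⟨k, hkX, hEk⟩, ⟨ρ, hρE, hρ⟩, ⟨h', hh'E, hh'a⟩⟩ := mem_filter.1 hE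
  have hED : E ⊆ D := mem_powerset.1 hED'
  have hh'X : h' ∈ X := hDX (hED hh'E)
  have hh1X : h₁ ∈ X := hKX hh1K
  -- the core
  obtain ⟨P, hPX, hP⟩ := h3 V G X h' h₁ hXc hh'X hh1X
  obtain ⟨K', hPK', hK'X, hChK', hleft⟩ := h5 V G X P h' h₁ hXc hPX hP
  have hh'K' : h' ∈ K' := hChK'.left_mem
  have hh1K' : h₁ ∈ K' := hChK'.right_mem
  have hK'S : K' ⊆ S := hK'X.trans hXS
  -- leftovers reach `S \ X`
  have hout : ∀ F, IsComp G (X \ K') F → ∀ kF ∈ K', (∀ e ∈ F, ∀ v ∈ K', G.Adj e v → v = kF) →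
      ∃ e ∈ F, ∃ v ∈ S, v ∉ X ∧ G.Adj e v := by
    intro F hF kF hkF huni
    have hFX : F ⊆ X := hF.subset.trans sdiff_subset
    have hkFF : kF ∉ F := fun h => (mem_sdiff.1 (hF.subset h)).2 hkF
    obtain ⟨e, he, v, hv, hvF, hvk, hev⟩ := hNC.exists_adj (hFX.trans hXS) hF.nonempty hkFF
      ⟨a, haS, fun h => haX (hFX h), fun h => haX (h ▸ hK'X hkF)⟩
    refine ⟨e, he, v, hv, fun hvX => ?_, hev⟩
    by_cases hvK' : v ∈ K'
    · exact hvk (huni e he v hvK' hev)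
    · exact hvF (hF.mem_of_adj he (mem_sdiff.2 ⟨hvX, hvK'⟩) hev)
  -- Claim 1
  have claim1 : ∀ ρ ∈ E, Rim G S ρ → ρ ∈ K' := by
    intro ρ hρE hρ
    by_contra hρK'
    obtain ⟨F, hF, hρF⟩ := exists_comp (G := G) (mem_sdiff.2 ⟨hDX (hED hρE), hρK'⟩)
    obtain ⟨kF, hkF, ⟨e₀, he₀, he₀k⟩, huni⟩ := hleft F hF
    have hFk := X3_left hK'X hF hkF huni
    have hnF : ∀ v ∈ K', v ∉ F := fun v hv h => (mem_sdiff.1 (hF.subset h)).2 hv
    have hkFE : kF ∈ E := by
      by_contra hk'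
      have := hFk.subset_of_mem hEk.conn (fun v hv => mem_erase.2 ⟨fun h => hk' (h ▸ hv),
        hDX (hED hv)⟩) hρE hρF
      exact hnF h' hh'K' (this hh'E)
    have hFE : F ⊆ E := by
      by_cases hkinF : k ∈ F
      · have hc : Conn G (X \ E) := hEk.conn_sdiff hXc hkX
        have hkE : k ∉ E := hEk.notMem_erase
        have := hFk.subset_of_mem hc (fun v hv => mem_erase.2
          ⟨fun h => (mem_sdiff.1 hv).2 (h ▸ hkFE), (mem_sdiff.1 hv).1⟩)
          (mem_sdiff.2 ⟨hkX, hkE⟩) hkinF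
        exact absurd (this (mem_sdiff.2 ⟨hh1X, fun h => hDK h₁ (hED h) hh1K⟩)) (hnF h₁ hh1K')
      · exact hEk.subset_of_mem hF.conn (fun v hv => mem_erase.2 ⟨fun h => hkinF (h ▸ hv),
          (mem_sdiff.1 (hF.subset hv)).1⟩) hρF hρE
    obtain ⟨e, he, v, hv, hvX, hev⟩ := hout F hF kF hkF huni
    have hea : G.Adj e a := by
      have h1 : v ∉ D := fun h => hvX (hDX h)
      rcases hDn e (hED (hFE he)) v hv h1 hev with h | h
      · exact h ▸ hev
      · exact absurd (h ▸ hKX hwK) hvX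
    have hmem : F ∈ Fam := mem_filter.2 ⟨mem_powerset.2 (hFE.trans hED),
      ⟨kF, hK'X hkF, hFk⟩, ⟨ρ, hρF, hρ⟩, ⟨e, he, hea⟩⟩
    have h1 := hmin F hmem
    have h2 : F ⊂ E := by
      refine ⟨hFE, fun h => ?_⟩
      exact hnF kF hkF (h hkFE)
    have h3 := card_lt_card h2
    omega
  -- Claim 2
  have claim2 : ∀ ρ ∈ K, Rim G S ρ → ρ ∈ K' := by
    intro ρ hρK hρ
    by_contra hρK'
    obtain ⟨F, hF, hρF⟩ := exists_comp (G := G) (mem_sdiff.2 ⟨hKX hρK, hρK'⟩)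
    obtain ⟨kF, hkF, ⟨e₀, he₀, he₀k⟩, huni⟩ := hleft F hF
    have hFk := X3_left hK'X hF hkF huni
    have hnF : ∀ v ∈ K', v ∉ F := fun v hv h => (mem_sdiff.1 (hF.subset h)).2 hv
    have hkFK : kF ∈ K := by
      by_contra hk'
      have := hFk.subset_of_mem hCh.conn (fun v hv => mem_erase.2 ⟨fun h => hk' (h ▸ hv),
        hKX hv⟩) hρK hρF
      exact hnF h₁ hh1K' (this hh1K)
    have hkFD : kF ∉ D := fun h => hDK kF h hkFK
    have hDer : D ⊆ X.erase kF := fun v hv => mem_erase.2 ⟨fun h => hkFD (h ▸ hv), hDX hv⟩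
    have hFD : ∀ v ∈ F, v ∉ D := by
      intro v hvF hvD
      have := hFk.subset_of_mem hD.conn hDer hvD hvF
      exact hnF h' hh'K' (this (hED hh'E))
    have hFK : F ⊆ K := by
      intro v hv
      rcases mem_union.1 ((mem_sdiff.1 (hF.subset hv)).1) with h | h
      · exact h
      · exact absurd h (hFD v hv)
    have hFcomp : IsComp G (K.erase kF) F := by
      refine ⟨fun v hv => mem_erase.2 ⟨fun h => hnF kF hkF (h ▸ hv), hFK hv⟩, hF.conn, ?_⟩
      rintro ⟨e, he, v, hv, hev⟩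
      rw [mem_sdiff, mem_erase] at hv
      exact hv.2 (hFk.mem_of_adj he (mem_erase.2 ⟨hv.1.1, hKX hv.1.2⟩) hev)
    have hh2F : h₂ ∈ F := by
      rcases hCh.comp_mem hkFK hFcomp with h | h
      · exact h
      · exact absurd h (hnF h₁ hh1K')
    obtain ⟨C₀, hC₀, hcC₀⟩ := exists_comp (G := G) (X := (S \ K).erase a) (x := c)
      (mem_erase.2 ⟨hac.symm, hcM⟩)
    have hDC : Disjoint D C₀ := by
      rcases hD.eq_or_disjoint hC₀ with h | h
      · exact absurd (h ▸ hcC₀) hcD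
      · exact h
    have hKFc : Conn G (K \ F) := hFcomp.conn_sdiff hCh.conn hkFK
    have hwF : w ∉ F := fun h => hFD dw (hFk.mem_of_adj h (hDer hdw) hdww.symm) hdw
    obtain ⟨ca, hca, hcaa⟩ := hC₀.adj_erase hM haM
    have hC₀M : C₀ ⊆ S \ K := hC₀.subset_erase
    have hC₀a : a ∉ C₀ := hC₀.notMem_erase
    refine hK33 F D C₀ {a} (K \ F) Sᶜ ?_ ?_ ?_
    · have hFC : Disjoint F C₀ := disjoint_left.2 fun v hv hv' =>
        (mem_sdiff.1 (hC₀M hv')).2 (hFK hv)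
      have hFD' : Disjoint F D := disjoint_left.2 hFD
      have hFa : Disjoint F {a} := disjoint_singleton_right.2 fun h => haK (hFK h)
      have hFKF : Disjoint F (K \ F) := disjoint_sdiff
      have hFS : Disjoint F Sᶜ := disjoint_left.2 fun v hv hv' =>
        (mem_compl.1 hv') (hKS (hFK hv))
      have hDa : Disjoint D {a} := disjoint_singleton_right.2 haD
      have hDKF : Disjoint D (K \ F) := disjoint_left.2 fun v hv hv' =>
        hDK v hv (mem_sdiff.1 hv').1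
      have hDS' : Disjoint D Sᶜ := disjoint_left.2 fun v hv hv' => (mem_compl.1 hv') (hDS hv)
      have hCa : Disjoint C₀ {a} := disjoint_singleton_right.2 hC₀a
      have hCKF : Disjoint C₀ (K \ F) := disjoint_left.2 fun v hv hv' =>
        (mem_sdiff.1 (hC₀M hv)).2 (mem_sdiff.1 hv').1
      have hCS : Disjoint C₀ Sᶜ := disjoint_left.2 fun v hv hv' =>
        (mem_compl.1 hv') (mem_sdiff.1 (hC₀M hv)).1
      have haKF : Disjoint ({a} : Finset V) (K \ F) := disjoint_singleton_left.2 fun h =>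
        haK (mem_sdiff.1 h).1
      have haS' : Disjoint ({a} : Finset V) Sᶜ := disjoint_singleton_left.2 fun h =>
        (mem_compl.1 h) haS
      have hKS' : Disjoint (K \ F) Sᶜ := disjoint_left.2 fun v hv hv' =>
        (mem_compl.1 hv') (hKS (mem_sdiff.1 hv).1)
      simp only [List.pairwise_cons, List.mem_cons, List.not_mem_nil, or_false, forall_eq_or_imp,
        forall_eq, List.Pairwise.nil, and_true]
      refine ⟨⟨hFD', hFC, hFa, hFKF, hFS⟩, ⟨hDC, hDa, hDKF, hDS'⟩, ⟨hCa, hCKF, hCS⟩,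
        ⟨haKF, haS'⟩, ⟨hKS', ?_⟩⟩
      simp
    · intro A hA
      simp only [List.mem_cons, List.not_mem_nil, or_false] at hA
      rcases hA with h | h | h | h | h | h
      · exact h ▸ hF.conn
      · exact h ▸ hD.conn
      · exact h ▸ hC₀.conn
      · exact h ▸ conn_singleton a
      · exact h ▸ hKFc
      · exact h ▸ hSc
    · intro A hA B hB
      simp only [List.mem_cons, List.not_mem_nil, or_false] at hA hB
      have e1 : AdjS G F {a} := ⟨h₂, hh2F, a, mem_singleton_self a, hah.symm⟩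
      have e2 : AdjS G F (K \ F) := by
        obtain ⟨d, hd, hdk⟩ := hFcomp.adj_erase hCh.conn hkFK
        exact ⟨d, hd, kF, mem_sdiff.2 ⟨hkFK, hnF kF hkF⟩, hdk⟩
      have e3 : AdjS G F Sᶜ := hρ.adjS hρF
      have e4 : AdjS G D {a} := ⟨da, hda, a, mem_singleton_self a, hdaa⟩
      have e5 : AdjS G D (K \ F) := ⟨dw, hdw, w, mem_sdiff.2 ⟨hwK, hwF⟩, hdww⟩
      have e6 : AdjS G D Sᶜ := hrim.adjS hr
      have e7 : AdjS G C₀ {a} := ⟨ca, hca, a, mem_singleton_self a, hcaa⟩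
      have e8 : AdjS G C₀ (K \ F) := ⟨c, hcC₀, h₁, mem_sdiff.2 ⟨hh1K, hnF h₁ hh1K'⟩, hch⟩
      have e9 : AdjS G C₀ Sᶜ := hRc.adjS hcC₀
      rcases hA with rfl | rfl | rfl <;> rcases hB with rfl | rfl | rfl <;> assumption
  -- feasibility
  refine ⟨K', h', ⟨hK'S, fun h => haX (hK'X h), fun h => hcX (hK'X h), hh'a.symm, hch, hChK', ?_⟩,
    claim2, ρ, claim1 ρ hρE hρ, hDK ρ (hED hρE), hρ⟩
  have hMD : Conn G ((S \ K) \ D) := hD.conn_sdiff hM haM
  have hSX : (S \ K) \ D = S \ X := by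
    ext v
    simp only [hX, mem_sdiff, mem_union]
    tauto
  rw [hSX] at hMD
  refine conn_of_attach hMD (sdiff_subset_sdiff subset_rfl hK'X) fun F hF => ?_
  have hset : (S \ K') \ (S \ X) = X \ K' := by
    ext v
    simp only [mem_sdiff]
    constructor
    · rintro ⟨⟨h1, h2⟩, h3⟩
      refine ⟨?_, h2⟩
      by_contra h4
      exact h3 ⟨h1, h4⟩
    · rintro ⟨h1, h2⟩
      exact ⟨⟨hXS h1, h2⟩, fun h => h.2 h1⟩
  rw [hset] at hF
  obtain ⟨kF, hkF, _, huni⟩ := hleft F hF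
  obtain ⟨e, he, v, hv, hvX, hev⟩ := hout F hF kF hkF huni
  exact ⟨e, he, v, mem_sdiff.2 ⟨hv, hvX⟩, hev⟩

end TwoWalk
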